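import Pool.Agent.Y965.EL.Non
import Pool.Agent.H738R2.NoCurve

/-!
# MP_5d0005_an : every non-circular ellipse, with every cylinder of large height, has no rotational
invariant curve

The definitions used by the statement (`StrictlyConvexCurve`, `PhaseCylinder`, `Chord`,
`IsBilliardMap`, `cylinderMap`, `IsRotationalInvariantCurve`, `PartA`, `PartB`) are in
`Pool/Agent/H738R2/CylStmt.lean`.

For the ellipse with semi-axes `a > b` the billiard map changes `cot α` by exactly
`c sin (t₀ + t₁)`, `c = (a² - b²) / (a b)`, where `t₀, t₁` are the eccentric anomalies of the end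
points of the chord. If `0 < w < c` and `d w ≥ 2 L`, a path that winds around the phase cylinder
inside the strip `U ≤ cot α ≤ U + w` contains a piece whose image winds around the cylinder inside
any given strip `V ≤ cot α ≤ V + w` with `|V - U| ≤ c - w`.
-/

set_option autoImplicit false

namespace Pool.Agent.Results.MP_5d0005_an.EveryEllipse

open Pool.Agent.H738R2.Cyl

/-- **Every non-circular ellipse.** Let `a > b > 0`, let `c = (a² - b²) / (a b)`, and let `L` be the
length of the ellipse with semi-axes `a`, `b`. If `0 < w < c` and `d w ≥ 2 L` (such a `w` exists for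
every `d > 2 L / c`), then the map `T = T₂ ∘ T₁` of the cylinder surface of height `d` over the
ellipse has no rotational invariant curve, and every sequence of heights with steps at most `c - w`
is followed by an orbit of `T` up to `w`, the height of a point `(s, α)` being `cot α`. In particular
(with `U n = -M + n (c - w)`) orbits from every neighbourhood of `{α = π}` converge to `{α = 0}`.
Both parts of Q1 have a negative answer. -/
theorem result :
    (∀ a b : ℝ, 0 < b → b < a → ∃ (γ : ℝ → ℂ) (L : ℝ), StrictlyConvexCurve γ L ∧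
      Set.range γ = {z : ℂ | (z.re / a) ^ 2 + (z.im / b) ^ 2 = 1} ∧
      (∃ T₁, IsBilliardMap γ L T₁) ∧
      ∀ w d : ℝ, 0 < w → w < (a ^ 2 - b ^ 2) / (a * b) → 2 * L ≤ d * w →
        ∀ T₁, IsBilliardMap γ L T₁ →
          (¬ ∃ Γ, IsRotationalInvariantCurve (cylinderMap L d ∘ T₁) Γ) ∧
          ∀ U : ℕ → ℝ, (∀ n, |U (n + 1) - U n| ≤ (a ^ 2 - b ^ 2) / (a * b) - w) →
            ∃ z : PhaseCylinder L, ∀ n, U n ≤ Real.cot (((cylinderMap L d ∘ T₁)^[n] z).2 : ℝ) ∧
              Real.cot (((cylinderMap L d ∘ T₁)^[n] z).2 : ℝ) ≤ U n + w) ∧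
    ¬ PartA ∧ ¬ PartB := by
  refine ⟨?_, main⟩
  intro a b hb hab
  letI : Y965.EL.Ax := ⟨a, b, hb, hab⟩
  refine ⟨Y965.EL.γ, Y965.EL.len, Y965.EL.ellipse_strictlyConvex, Y965.EL.range_γ,
    Y965.EL.exists_T₁, ?_⟩
  intro w d hw hwc hd T₁ hT
  letI : Y965.EL.Hd := ⟨d, w, hw, hwc, hd⟩
  exact ⟨Y965.EL.no_curve hT, fun U hU => Y965.EL.itinerary hT U hU⟩

end Pool.Agent.Results.MP_5d0005_an.EveryEllipse
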